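import Pool.Agent.helper83.GR.Spec

/-!
# gr:CCI, the central character on the local ring
-/

set_option autoImplicit false

namespace Pool.Agent.GR

open Pool.Agent.helper58.DC Pool.Agent.DI

theorem CCI_decomp (G : Type) [Group G] [Fintype G] (ψ z : G → ℂ) [DecidableEq ℂ] :
    cc ψ z = ∑ v ∈ Finset.univ.image z, v * cc ψ (fun x => if z x = v then 1 else 0) := by
  unfold cc
  simp only [finsum_eq_sum_of_fintype]
  have e1 : ∀ v : ℂ, v * ((∑ x, (if z x = v then (1 : ℂ) else 0) * ψ x) / ψ 1) =
      (∑ x, (if z x = v then z x * ψ x else 0)) / ψ 1 := by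
    intro v
    rw [← mul_div_assoc, Finset.mul_sum]
    congr 1
    refine Finset.sum_congr rfl fun x _ => ?_
    split_ifs with h
    · rw [h]; ring
    · ring
  simp only [e1]
  rw [← Finset.sum_div, Finset.sum_comm]
  congr 1
  refine Finset.sum_congr rfl fun x _ => ?_
  rw [Finset.sum_ite_eq, if_pos (Finset.mem_image_of_mem z (Finset.mem_univ x))]

theorem CCI (hC3 : C3_stmt) (hC4 : C4_stmt) (hB2 : B2_stmt) : CCI_stmt := by
  intro G _ _ H ψ hψ
  classical
  have : Fintype G := Fintype.ofFinite G
  obtain ⟨⟨n, hn, hψ1, -⟩, -⟩ := (hB2 G H).2 ψ hψ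
  have hne : ψ 1 ≠ 0 := by
    rw [hψ1]
    exact_mod_cast hn.ne'
  refine ⟨?_, ?_, ?_⟩
  · intro k z w
    unfold cc
    simp only [finsum_eq_sum_of_fintype, Pi.add_apply, Pi.sub_apply, Pi.smul_apply, smul_eq_mul]
    refine ⟨?_, ?_, ?_, ?_⟩
    · rw [← add_div, ← Finset.sum_add_distrib]
      congr 1
      exact Finset.sum_congr rfl fun x _ => by ring
    · rw [← sub_div, ← Finset.sum_sub_distrib]
      congr 1
      exact Finset.sum_congr rfl fun x _ => by ring
    · rw [← mul_div_assoc, Finset.mul_sum]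
      congr 1
      exact Finset.sum_congr rfl fun x _ => by ring
    · unfold dl
      rw [div_eq_one_iff_eq hne]
      simp
  · intro z w hz hw
    exact (hC4 G).1 H ψ hψ z w hz.1 hz.2 hw.2
  · intro p M hS z hz
    have hint : ∀ v : ℂ, IntAt M (cc ψ (fun x => if z x = v then 1 else 0)) := by
      intro v
      refine IntAt.of_isIntegral hS ((hC3 G).1 H ψ hψ _ ?_ ?_)
      · intro l hl x
        show (if z (l * x * l⁻¹) = v then (1 : ℂ) else 0) = if z x = v then 1 else 0
        rw [hz l hl x]
      · intro x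
        show IsIntegral ℤ (if z x = v then (1 : ℂ) else 0)
        split_ifs
        · exact isIntegral_one
        · exact isIntegral_zero
    rw [CCI_decomp G ψ z]
    constructor
    · intro h
      refine IntAt.sum hS _ fun v hv => ?_
      obtain ⟨x, -, rfl⟩ := Finset.mem_image.1 hv
      exact (h x).mul hS (hint _)
    · intro h
      refine InM.sum hS _ fun v hv => ?_
      obtain ⟨x, -, rfl⟩ := Finset.mem_image.1 hv
      exact InM.mul_right hS (h x) (hint _)

end Pool.Agent.GR
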