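import Pool.Agent.helper83.GR.Spec

/-!
# gr:PRD, long products of elements of a finite subset of the maximal ideal
-/

set_option autoImplicit false

namespace Pool.Agent.GR

open Pool.Agent.helper58.DC Pool.Agent.DI

theorem PRD_small_mul {p : ℕ} {M : Ideal (integralClosure ℤ ℂ)} (h : Setup p M) {r : ℕ} {z w : ℂ}
    (hz : Small p M r z) (hw : IntAt M w) : Small p M r (z * w) := by
  obtain ⟨u, hu, e⟩ := hz
  exact ⟨u * w, hu.mul h hw, by rw [e]; ring⟩

theorem PRD_small_pow {p : ℕ} {M : Ideal (integralClosure ℤ ℂ)} (h : Setup p M) {z : ℂ}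
    (hz : Small p M 1 z) (r : ℕ) : Small p M r (z ^ r) := by
  obtain ⟨u, hu, e⟩ := hz
  exact ⟨u ^ r, hu.pow h r, by rw [e]; ring⟩

theorem PRD (hVAL : VAL_stmt) : PRD_stmt := by
  intro p M hS T hT hTM r
  classical
  choose! k hk using fun t (ht : t ∈ T) => hVAL p M hS t (hTM t ht)
  obtain ⟨K, hK⟩ : ∃ K, K = ∑ t ∈ hT.toFinset, k t := ⟨_, rfl⟩
  have hkK : ∀ t ∈ T, k t ≤ K := by
    intro t ht
    rw [hK]
    exact Finset.single_le_sum (f := k) (fun _ _ => Nat.zero_le _) (hT.mem_toFinset.2 ht)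
  have hpow : ∀ t ∈ T, ∀ n : ℕ, K * r ≤ n → Small p M r (t ^ n) := by
    intro t ht n hn
    have h1 : Small p M 1 (t ^ K) := by
      have : t ^ K = t ^ k t * t ^ (K - k t) := by
        rw [← pow_add, Nat.add_sub_cancel' (hkK t ht)]
      rw [this]
      exact PRD_small_mul hS (hk t ht) ((hTM t ht).intAt.pow hS _)
    have h2 := PRD_small_pow hS h1 r
    have : t ^ n = (t ^ K) ^ r * t ^ (n - K * r) := by
      rw [← pow_mul, ← pow_add, Nat.add_sub_cancel' hn]
    rw [this]
    exact PRD_small_mul hS h2 ((hTM t ht).intAt.pow hS _)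
  refine ⟨hT.toFinset.card * (K * r) + 1, fun m hm f hf => ?_⟩
  obtain ⟨t, ht, hcard⟩ := Finset.exists_lt_card_fiber_of_mul_lt_card_of_maps_to
    (s := (Finset.univ : Finset (Fin m))) (t := hT.toFinset) (f := f) (n := K * r)
    (fun i _ => hT.mem_toFinset.2 (hf i)) (by
      rw [Finset.card_univ, Fintype.card_fin]
      omega)
  rw [← Finset.prod_filter_mul_prod_filter_not Finset.univ (fun i => f i = t)]
  have e : ∏ i ∈ Finset.univ.filter (fun i => f i = t), f i =
      t ^ (Finset.univ.filter (fun i => f i = t)).card := by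
    rw [Finset.prod_congr rfl (fun i hi => (Finset.mem_filter.1 hi).2), Finset.prod_const]
  rw [e]
  exact PRD_small_mul hS (hpow t (hT.mem_toFinset.1 ht) _ hcard.le)
    (IntAt.prod hS _ fun i _ => (hTM _ (hf i)).intAt)

end Pool.Agent.GR
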